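import Mathlib
import Pool.Agent.Y784.QT.T9bA

set_option autoImplicit false

/-!
Task T9b of the project QT: theta series with all `n` versus squarefree `n`.
-/

namespace Pool.Agent.Y784.QT9b

open Complex MeasureTheory Filter Topology
open Pool.Agent.Y19.QT Pool.Agent.Y784.QT
open Pool.Agent.H306R2.RZ (js)
open scoped ENNReal

noncomputable section

variable {Q : ℕ} {lam : ℕ → ℝ}

/-- regrouping a double sum, in `ℝ≥0∞` -/
theorem regroup_enn (f : ℕ × ℕ → ℝ≥0∞) (hf : ∀ p : ℕ × ℕ, p.1 * p.2 = 0 → f p = 0) :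
    ∑' n : ℕ, ∑ p ∈ n.divisorsAntidiagonal, f p = ∑' p, f p := by
  rw [← ENNReal.tsum_fiberwise f (fun p : ℕ × ℕ => p.1 * p.2)]
  refine tsum_congr fun n => ?_
  by_cases hn : n = 0
  · subst hn
    simp only [Nat.divisorsAntidiagonal_zero, Finset.sum_empty]
    symm
    rw [ENNReal.tsum_eq_zero]
    rintro ⟨p, hp⟩
    exact hf p hp
  · have : ((fun p : ℕ × ℕ => p.1 * p.2) ⁻¹' {n}) = (n.divisorsAntidiagonal : Set (ℕ × ℕ)) := by
      ext p
      simp [hn]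
    rw [this, Finset.tsum_subtype']

/-- regrouping a double sum, in `ℂ` -/
theorem regroup (f : ℕ × ℕ → ℂ) (hf : ∀ p : ℕ × ℕ, p.1 * p.2 = 0 → f p = 0) (hs : Summable f) :
    ∑' n : ℕ, ∑ p ∈ n.divisorsAntidiagonal, f p = ∑' p, f p := by
  have h1 := (hs.hasSum.tsum_fiberwise (fun p : ℕ × ℕ => p.1 * p.2)).tsum_eq
  rw [← h1]
  refine tsum_congr fun n => ?_
  by_cases hn : n = 0
  · subst hn
    simp only [Nat.divisorsAntidiagonal_zero, Finset.sum_empty]
    symm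
    convert tsum_zero with p
    exact hf p.1 p.2
  · have : ((fun p : ℕ × ℕ => p.1 * p.2) ⁻¹' {n}) = (n.divisorsAntidiagonal : Set (ℕ × ℕ)) := by
      ext p
      simp [hn]
    rw [this, Finset.tsum_subtype']

/-- Cauchy-Schwarz for series in `ℝ≥0∞` -/
theorem cs_enn (f g : ℕ → ℝ≥0∞) :
    (∑' n, f n * g n) ^ 2 ≤ (∑' n, f n ^ 2) * ∑' n, g n ^ 2 := by
  have h := ENNReal.lintegral_mul_le_Lp_mul_Lq (Measure.count : Measure ℕ)
    (Real.HolderConjugate.two_two) (f := f) (g := g) (by fun_prop) (by fun_prop)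
  simp only [Pi.mul_apply, lintegral_count] at h
  have h2 := pow_le_pow_left' h 2
  refine h2.trans (le_of_eq ?_)
  rw [mul_pow, ← ENNReal.rpow_natCast, ← ENNReal.rpow_natCast, ← ENNReal.rpow_mul,
    ← ENNReal.rpow_mul]
  norm_num

/-- weighted Cauchy-Schwarz -/
theorem cs_weight (c x y : ℕ → ℝ≥0∞) (h : ∀ n, c n = 0 ∨ (y n ≠ 0 ∧ y n ≠ ⊤)) :
    (∑' n, c n * x n) ^ 2 ≤ (∑' n, c n * (y n)⁻¹) * ∑' n, c n * y n * x n ^ 2 := by
  have hsq : ∀ t : ℝ≥0∞, (t ^ (1 / 2 : ℝ)) ^ 2 = t := by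
    intro t
    rw [← ENNReal.rpow_natCast, ← ENNReal.rpow_mul]
    norm_num
  have h1 := cs_enn (fun n => c n ^ (1 / 2 : ℝ) * ((y n)⁻¹) ^ (1 / 2 : ℝ))
    (fun n => c n ^ (1 / 2 : ℝ) * (y n) ^ (1 / 2 : ℝ) * x n)
  simp only [mul_pow, hsq] at h1
  refine le_trans (le_of_eq ?_) h1
  congr 1
  refine tsum_congr fun n => ?_
  rcases h n with h0 | ⟨h0, h2⟩
  · rw [h0]; simp
  · have e1 : ((y n)⁻¹) ^ (1 / 2 : ℝ) * (y n) ^ (1 / 2 : ℝ) = 1 := by
      rw [← ENNReal.mul_rpow_of_nonneg _ _ (by norm_num), ENNReal.inv_mul_cancel h0 h2,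
        ENNReal.one_rpow]
    calc c n * x n = ((c n ^ (1 / 2 : ℝ)) ^ 2) * x n * 1 := by rw [hsq, mul_one]
      _ = ((c n ^ (1 / 2 : ℝ)) ^ 2) * x n * (((y n)⁻¹) ^ (1 / 2 : ℝ) * (y n) ^ (1 / 2 : ℝ)) := by
          rw [e1]
      _ = _ := by ring

/-- scaling in a lower integral -/
theorem lint_scale (g : ℝ → ℝ≥0∞) (a u0 : ℝ) (ha : 0 < a) :
    ∫⁻ u in Set.Ioi u0, g (a * u) = ENNReal.ofReal a⁻¹ * ∫⁻ v in Set.Ioi (a * u0), g v := by
  have e1 : ∫⁻ u in Set.Ioi u0, g (a * u) = ∫⁻ u, ((Set.Ioi (a * u0)).indicator g)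
      ((Homeomorph.mulLeft₀ a ha.ne').toMeasurableEquiv u) := by
    rw [← lintegral_indicator measurableSet_Ioi]
    refine lintegral_congr fun u => ?_
    simp only [Set.indicator, Set.mem_Ioi, Homeomorph.toMeasurableEquiv_coe,
      Homeomorph.coe_mulLeft₀, mul_lt_mul_iff_right₀ ha]
  rw [e1, ← lintegral_map_equiv]
  have e2 : Measure.map (⇑(Homeomorph.mulLeft₀ a ha.ne').toMeasurableEquiv) (volume : Measure ℝ) =
      ENNReal.ofReal a⁻¹ • volume := by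
    have := Real.map_volume_mul_left ha.ne'
    rw [abs_of_pos (inv_pos.mpr ha)] at this
    exact this
  rw [e2, lintegral_smul_measure, lintegral_indicator measurableSet_Ioi, smul_eq_mul]

/-- `x^5 e^{-x r}` is bounded -/
theorem exp_bound (r : ℝ) (hr : 0 < r) : ∃ C : ℝ, 0 < C ∧ ∀ n : ℕ, 1 ≤ n →
    Real.exp (-(2 * Real.pi * n * r)) ≤ C * ((n : ℝ) ^ 5)⁻¹ := by
  refine ⟨(Nat.factorial 5 : ℝ) / r ^ 5, by positivity, fun n hn => ?_⟩
  have hn' : (0 : ℝ) < n := by exact_mod_cast hn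
  have h1 := Real.pow_div_factorial_le_exp (2 * Real.pi * n * r) (by positivity) 5
  have h2 : (n * r) ^ 5 ≤ (2 * Real.pi * n * r) ^ 5 := by
    apply pow_le_pow_left₀ (by positivity)
    have : (1 : ℝ) ≤ 2 * Real.pi := by linarith [Real.pi_gt_three]
    nlinarith [mul_pos hn' hr]
  rw [Real.exp_neg]
  have h3 : (n * r) ^ 5 / (Nat.factorial 5 : ℝ) ≤ Real.exp (2 * Real.pi * n * r) :=
    le_trans (by gcongr) h1
  calc (Real.exp (2 * Real.pi * n * r))⁻¹ ≤ ((n * r) ^ 5 / (Nat.factorial 5 : ℝ))⁻¹ :=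
        inv_anti₀ (by positivity) h3
    _ = _ := by field_simp

theorem norm_cexp (n : ℕ) (w : ℂ) :
    ‖cexp (-(2 * Real.pi * n * w))‖ = Real.exp (-(2 * Real.pi * n * w.re)) := by
  rw [Complex.norm_exp]
  congr 1
  have : (-(2 * (Real.pi : ℂ) * n * w)) = ((-(2 * Real.pi * n) : ℝ) : ℂ) * w := by
    push_cast; ring
  rw [this, Complex.re_ofReal_mul]
  ring

/-- the coefficient of `G_d` -/
def cG (lam : ℕ → ℝ) (d : ℤ) (n : ℕ) : ℝ := flat lam n * Real.sqrt n * js d n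

theorem cG_le (H : Hecke Q lam) (d : ℤ) (n : ℕ) (hn : 1 ≤ n) : |cG lam d n| ≤ (n : ℝ) ^ 2 := by
  have hn' : (1 : ℝ) ≤ n := by exact_mod_cast hn
  rw [cG, abs_mul, abs_mul, abs_of_nonneg (Real.sqrt_nonneg _)]
  have h1 : Real.sqrt n ≤ n := by
    rw [Real.sqrt_le_left (by positivity)]
    nlinarith
  have h2 := flat_le H n
  have h3 := js_le d n
  calc |flat lam n| * Real.sqrt n * |js d n| ≤ n * n * 1 := by gcongr
    _ = _ := by ring

theorem summable_double (T : Twists Q lam) (d : ℤ) (hd : Squarefree d) (w : ℂ) (hw : 0 < w.re)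
    (hη : Summable (fun a : ℕ => |Aη T d hd a| * (a : ℝ) ^ (-(1 : ℝ)))) :
    Summable (fun p : ℕ × ℕ => (((Aη T d hd p.1 * Real.sqrt p.1) * cG lam d p.2 : ℝ) : ℂ) *
      cexp (-(2 * Real.pi * ((p.1 * p.2 : ℕ) : ℂ) * w))) := by
  obtain ⟨C, hC, hb⟩ := exp_bound w.re hw
  have hz : Summable (fun b : ℕ => C * ((b : ℝ) ^ 3)⁻¹) :=
    (Real.summable_nat_pow_inv.mpr (by norm_num)).mul_left C
  refine Summable.of_norm_bounded (hη.mul_of_nonneg hz (fun _ => by positivity)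
    (fun _ => by positivity)) fun p => ?_
  obtain ⟨a, b⟩ := p
  rw [norm_mul, norm_cexp, Complex.norm_real, Real.norm_eq_abs]
  rcases Nat.eq_zero_or_pos a with ha | ha
  · subst ha; simp
  rcases Nat.eq_zero_or_pos b with hb0 | hb0
  · subst hb0; simp [cG, flat]
  have ha' : (1 : ℝ) ≤ a := by exact_mod_cast ha
  have hb' : (1 : ℝ) ≤ b := by exact_mod_cast hb0
  have h1 := hb (a * b) (Nat.mul_pos ha hb0)
  have h2 := cG_le T.hecke d b hb0
  rw [abs_mul, abs_mul, abs_of_nonneg (Real.sqrt_nonneg _)]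
  have h3 : Real.sqrt a ≤ a := by
    rw [Real.sqrt_le_left (by positivity)]
    nlinarith
  calc |Aη T d hd a| * Real.sqrt a * |cG lam d b| * Real.exp (-(2 * Real.pi * ((a * b : ℕ) : ℝ) * w.re))
      ≤ |Aη T d hd a| * a * (b : ℝ) ^ 2 * (C * (((a * b : ℕ) : ℝ) ^ 5)⁻¹) := by gcongr
    _ = |Aη T d hd a| * ((a : ℝ) ^ 4)⁻¹ * (C * ((b : ℝ) ^ 3)⁻¹) := by
        push_cast
        field_simp
    _ ≤ |Aη T d hd a| * (a : ℝ) ^ (-(1 : ℝ)) * (C * ((b : ℝ) ^ 3)⁻¹) := by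
        gcongr
        rw [Real.rpow_neg_one]
        apply inv_anti₀ (by positivity)
        exact le_self_pow₀ ha' (by norm_num)

theorem G_eq (d : ℤ) (w : ℂ) : G lam d w =
    ∑' n : ℕ, (cG lam d n : ℂ) * cexp (-(2 * Real.pi * n * w)) := rfl

/-- expansion of `Gf` in the `G_d(a w)` -/
theorem Gf_eq (T : Twists Q lam) (d : ℤ) (hd : Squarefree d) (w : ℂ) (hw : 0 < w.re)
    (hη : Summable (fun a : ℕ => |Aη T d hd a| * (a : ℝ) ^ (-(1 : ℝ)))) :
    T.Gf d w = ∑' a : ℕ, ((Aη T d hd a * Real.sqrt a : ℝ) : ℂ) * G lam d (a * w) := by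
  have hs := summable_double T d hd w hw hη
  have h1 : T.Gf d w = ∑' n : ℕ, ∑ p ∈ n.divisorsAntidiagonal,
      (((Aη T d hd p.1 * Real.sqrt p.1) * cG lam d p.2 : ℝ) : ℂ) *
      cexp (-(2 * Real.pi * ((p.1 * p.2 : ℕ) : ℂ) * w)) := by
    rw [Twists.Gf]
    refine tsum_congr fun n => ?_
    rw [cf_eq T d hd n, Finset.sum_mul, Complex.ofReal_sum, Finset.sum_mul]
    refine Finset.sum_congr rfl fun p hp => ?_
    have hp' := (Nat.mem_divisorsAntidiagonal.mp hp).1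
    rw [hp']
    congr 2
    rw [← hp', Nat.cast_mul, Real.sqrt_mul (Nat.cast_nonneg _), cG]
    ring
  rw [h1, regroup _ _ hs, hs.tsum_prod]
  · refine tsum_congr fun a => ?_
    rw [G_eq, ← tsum_mul_left]
    refine tsum_congr fun b => ?_
    push_cast
    ring_nf
  · rintro ⟨a, b⟩ hab
    rcases mul_eq_zero.mp hab with h | h
    · simp only at h; subst h; simp
    · simp only at h; subst h; simp [cG, flat]

/-- pointwise bound -/
theorem Gf_le (T : Twists Q lam) (d : ℤ) (hd : Squarefree d) (w : ℂ) (hw : 0 < w.re)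
    (hη : Summable (fun a : ℕ => |Aη T d hd a| * (a : ℝ) ^ (-(1 : ℝ)))) :
    ‖T.Gf d w‖ₑ ≤ ∑' a : ℕ, ‖Aη T d hd a‖ₑ * (ENNReal.ofReal (Real.sqrt a) * ‖G lam d (a * w)‖ₑ) := by
  rw [Gf_eq T d hd w hw hη]
  refine (enorm_tsum_le_tsum_enorm).trans (le_of_eq ?_)
  refine tsum_congr fun a => ?_
  rw [enorm_mul, Complex.ofReal_mul, enorm_mul, mul_assoc]
  congr 1
  · simp [← ofReal_norm_eq_enorm]
  · congr 1
    rw [← ofReal_norm_eq_enorm, Complex.norm_real, Real.norm_of_nonneg (Real.sqrt_nonneg _)]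

/-- measurability -/
theorem G_meas (H : Hecke Q lam) (d : ℤ) (θ u0 : ℝ) (hθ : |θ| < Real.pi / 2) (hu : 0 ≤ u0) (a : ℕ) (ha : 1 ≤ a) :
    AEMeasurable (fun u : ℝ => G lam d (a * ray θ u)) (volume.restrict (Set.Ioi u0)) := by
  have ha' : (0 : ℝ) < a := by exact_mod_cast ha
  refine aemeasurable_of_tendsto_metrizable_ae atTop
    (f := fun (N : ℕ) (u : ℝ) => ∑ n ∈ Finset.range N, (cG lam d n : ℂ) *
      cexp (-(2 * Real.pi * n * (a * ray θ u)))) ?_ ?_
  · intro N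
    apply Continuous.aemeasurable
    unfold ray
    fun_prop
  · rw [ae_restrict_iff' measurableSet_Ioi]
    refine Eventually.of_forall fun u hu' => ?_
    rw [G_eq]
    apply Summable.tendsto_sum_tsum_nat (f := fun n : ℕ => (cG lam d n : ℂ) *
      cexp (-(2 * Real.pi * n * (a * ray θ u))))
    have hcos : 0 < Real.cos θ := Real.cos_pos_of_mem_Ioo ⟨by linarith [(abs_lt.mp hθ).1], (abs_lt.mp hθ).2⟩
    have hre : 0 < ((a : ℂ) * ray θ u).re := by
      have : ((a : ℂ) * ray θ u) = ((a * u : ℝ) : ℂ) * cexp ((θ : ℂ) * I) := by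
        rw [ray]; push_cast; ring
      rw [this, Complex.re_ofReal_mul, Complex.exp_ofReal_mul_I_re]
      have hu'' : 0 < u := lt_of_le_of_lt hu hu'
      positivity
    obtain ⟨C, hC, hb⟩ := exp_bound _ hre
    refine Summable.of_norm_bounded
      ((Real.summable_nat_pow_inv.mpr (by norm_num : 1 < 3)).mul_left C) fun n => ?_
    rw [norm_mul, norm_cexp, Complex.norm_real, Real.norm_eq_abs]
    rcases Nat.eq_zero_or_pos n with hn | hn
    · subst hn; simp [cG, flat]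
    have hn' : (1 : ℝ) ≤ n := by exact_mod_cast hn
    calc |cG lam d n| * Real.exp (-(2 * Real.pi * n * ((a : ℂ) * ray θ u).re))
        ≤ (n : ℝ) ^ 2 * (C * ((n : ℝ) ^ 5)⁻¹) :=
          mul_le_mul (cG_le H d n hn) (hb n hn) (by positivity) (by positivity)
      _ = C * ((n : ℝ) ^ 3)⁻¹ := by field_simp

theorem enorm_real (x : ℝ) : ‖x‖ₑ = ENNReal.ofReal |x| := by
  rw [← ofReal_norm_eq_enorm, Real.norm_eq_abs]

/-- `∑ |η_d(a)| a^{-σ}` -/
theorem eta_sum (T : Twists Q lam) (d : ℤ) (hd : Squarefree d) (σ : ℝ) (hσ : 1 / 2 < σ) :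
    ∑' a : ℕ, ‖Aη T d hd a‖ₑ * ENNReal.ofReal ((a : ℝ) ^ (-σ)) ≤
      ENNReal.ofReal (T.c * (1 + 1 / (2 * σ - 1)) ^ 72) := by
  have hpos : (0 : ℝ) < 2 * σ - 1 := by linarith
  obtain ⟨hY1, hY2⟩ := AY_sum T.hecke σ hσ
  obtain ⟨hE1, hE2⟩ := T.e_sum d hd
  have h1 : ∑' a : ℕ, ‖Aη T d hd a‖ₑ * ENNReal.ofReal ((a : ℝ) ^ (-σ)) ≤
      ∑' n : ℕ, ∑ p ∈ n.divisorsAntidiagonal,
        (ENNReal.ofReal (|T.e d p.1| * (p.1 : ℝ) ^ (-(1 / 4) : ℝ)) *
          ENNReal.ofReal (|AY T.hecke p.2| * (p.2 : ℝ) ^ (-σ))) := by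
    refine ENNReal.tsum_le_tsum fun n => ?_
    rw [enorm_real, ← ENNReal.ofReal_mul (abs_nonneg _)]
    have h2 : |Aη T d hd n| * (n : ℝ) ^ (-σ) ≤ ∑ p ∈ n.divisorsAntidiagonal,
        (|T.e d p.1| * (p.1 : ℝ) ^ (-(1 / 4) : ℝ)) * (|AY T.hecke p.2| * (p.2 : ℝ) ^ (-σ)) := by
      rw [Aη, ArithmeticFunction.mul_apply]
      refine (mul_le_mul_of_nonneg_right (Finset.abs_sum_le_sum_abs _ _) (by positivity)).trans ?_
      rw [Finset.sum_mul]
      refine Finset.sum_le_sum fun p hp => ?_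
      have hp' := (Nat.mem_divisorsAntidiagonal.mp hp).1
      have hp0 := Nat.ne_zero_of_mem_divisorsAntidiagonal hp
      have ha' : (1 : ℝ) ≤ p.1 := by exact_mod_cast Nat.one_le_iff_ne_zero.mpr hp0.1
      have h3 : ((p.1 : ℝ)) ^ (-σ) ≤ (p.1 : ℝ) ^ (-(1 / 4) : ℝ) :=
        Real.rpow_le_rpow_of_exponent_le ha' (by linarith)
      rw [← hp', Nat.cast_mul, Real.mul_rpow (Nat.cast_nonneg _) (Nat.cast_nonneg _), abs_mul,
        ArithmeticFunction.pmul_apply, abs_mul]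
      have h4 : |AE T d hd p.1| = |T.e d p.1| := rfl
      rw [h4]
      calc |T.e d p.1| * (|AY T.hecke p.2| * |Ax d p.2|) * ((p.1 : ℝ) ^ (-σ) * (p.2 : ℝ) ^ (-σ))
          ≤ |T.e d p.1| * (|AY T.hecke p.2| * 1) * ((p.1 : ℝ) ^ (-(1 / 4) : ℝ) * (p.2 : ℝ) ^ (-σ)) := by
            have := Ax_le d p.2
            gcongr
        _ = _ := by ring
    refine (ENNReal.ofReal_le_ofReal h2).trans (le_of_eq ?_)
    rw [ENNReal.ofReal_sum_of_nonneg (fun p _ => by positivity)]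
    refine Finset.sum_congr rfl fun p _ => ?_
    rw [← ENNReal.ofReal_mul (by positivity)]
  refine h1.trans ?_
  rw [regroup_enn (fun p : ℕ × ℕ => ENNReal.ofReal (|T.e d p.1| * (p.1 : ℝ) ^ (-(1 / 4) : ℝ)) *
    ENNReal.ofReal (|AY T.hecke p.2| * (p.2 : ℝ) ^ (-σ)))]
  · rw [ENNReal.tsum_prod (f := fun a b : ℕ => ENNReal.ofReal (|T.e d a| * (a : ℝ) ^ (-(1 / 4) : ℝ)) *
      ENNReal.ofReal (|AY T.hecke b| * (b : ℝ) ^ (-σ)))]
    simp only [ENNReal.tsum_mul_left, ENNReal.tsum_mul_right]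
    rw [← ENNReal.ofReal_tsum_of_nonneg (fun _ => by positivity) hE1,
      ← ENNReal.ofReal_tsum_of_nonneg (fun _ => by positivity) hY1,
      ← ENNReal.ofReal_mul (tsum_nonneg fun _ => by positivity)]
    apply ENNReal.ofReal_le_ofReal
    exact mul_le_mul hE2 hY2 (tsum_nonneg fun _ => by positivity) (by linarith [T.one_le_c])
  · rintro ⟨a, b⟩ hab
    rcases mul_eq_zero.mp hab with h | h
    · simp only at h; subst h
      simp [(T.e_zero d hd).1]
    · simp only at h; subst h; simp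

theorem eta_summable (T : Twists Q lam) (d : ℤ) (hd : Squarefree d) :
    Summable (fun a : ℕ => |Aη T d hd a| * (a : ℝ) ^ (-(1 : ℝ))) := by
  have h := eta_sum T d hd 1 (by norm_num)
  have h2 : ∑' a : ℕ, ENNReal.ofReal (|Aη T d hd a| * (a : ℝ) ^ (-(1 : ℝ))) ≠ ⊤ := by
    refine ne_top_of_le_ne_top ENNReal.ofReal_ne_top (le_trans (le_of_eq ?_) h)
    refine tsum_congr fun a => ?_
    rw [enorm_real, ← ENNReal.ofReal_mul (abs_nonneg _)]
  have h3 := ENNReal.summable_toReal h2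
  refine h3.congr fun a => ?_
  rw [ENNReal.toReal_ofReal (by positivity)]

/-- T9b -/
theorem T9b {Q : ℕ} {lam : ℕ → ℝ} (T : Twists Q lam) : ∃ (C : ℝ) (A : ℕ), 0 < C ∧
    ∀ (d : ℤ) (σ θ u0 : ℝ), Squarefree d → 1 / 2 < σ → σ ≤ 1 → |θ| < Real.pi / 2 → 0 < u0 →
      NN σ θ u0 (T.Gf d) ≤ ENNReal.ofReal (C * ((σ - 1 / 2)⁻¹) ^ A) * NN σ θ u0 (G lam d) := by
  have hc := T.one_le_c
  refine ⟨T.c ^ 2, 144, by positivity, fun d σ θ u0 hd hσ hσ1 hθ hu0 => ?_⟩
  have hηs := eta_summable T d hd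
  set S : ℝ≥0∞ := ∑' a : ℕ, ‖Aη T d hd a‖ₑ * ENNReal.ofReal ((a : ℝ) ^ (-σ)) with hS
  clear_value S
  have hS1 : S ≤ ENNReal.ofReal (T.c * ((σ - 1 / 2)⁻¹) ^ 72) := by
    rw [hS]
    refine (eta_sum T d hd σ hσ).trans (ENNReal.ofReal_le_ofReal ?_)
    have h1 : (1 : ℝ) + 1 / (2 * σ - 1) ≤ (σ - 1 / 2)⁻¹ := by
      have h2 : (0 : ℝ) < 2 * σ - 1 := by linarith
      have h3 : (σ - 1 / 2)⁻¹ = 2 / (2 * σ - 1) := by
        rw [show σ - 1 / 2 = (2 * σ - 1) / 2 by ring, inv_div]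
      rw [h3, le_div_iff₀ h2, add_mul, one_div, inv_mul_cancel₀ h2.ne']
      linarith
    have h4 : (0 : ℝ) ≤ 1 + 1 / (2 * σ - 1) := by
      have : (0 : ℝ) < 2 * σ - 1 := by linarith
      positivity
    gcongr
  have hcos : 0 < Real.cos θ := Real.cos_pos_of_mem_Ioo ⟨by linarith [(abs_lt.mp hθ).1], (abs_lt.mp hθ).2⟩
  have hre : ∀ u : ℝ, u0 < u → 0 < (ray θ u).re := by
    intro u hu
    rw [ray, Complex.re_ofReal_mul, Complex.exp_ofReal_mul_I_re]
    have : 0 < u := hu0.trans hu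
    positivity
  -- the key inequality
  have key : NN σ θ u0 (T.Gf d) ≤ S * (S * NN σ θ u0 (G lam d)) := by
    rw [NN]
    -- pointwise
    have hpt : ∀ u ∈ Set.Ioi u0, ‖T.Gf d (ray θ u)‖ₑ ^ 2 * ENNReal.ofReal (u ^ (2 * σ)) ≤
        S * ∑' a : ℕ, (‖Aη T d hd a‖ₑ * ENNReal.ofReal ((a : ℝ) ^ σ)) *
          ((ENNReal.ofReal (Real.sqrt a) * ‖G lam d (a * ray θ u)‖ₑ) ^ 2 *
            ENNReal.ofReal (u ^ (2 * σ))) := by
      intro u hu
      have h1 := pow_le_pow_left' (Gf_le T d hd (ray θ u) (hre u hu) hηs) 2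
      have h2 := cs_weight (fun a => ‖Aη T d hd a‖ₑ)
        (fun a => ENNReal.ofReal (Real.sqrt a) * ‖G lam d (a * ray θ u)‖ₑ)
        (fun a => ENNReal.ofReal ((a : ℝ) ^ σ)) (fun a => by
          rcases Nat.eq_zero_or_pos a with ha | ha
          · left; subst ha; simp
          · right
            have ha' : (0 : ℝ) < a := by exact_mod_cast ha
            exact ⟨by simp [Real.rpow_pos_of_pos ha'], ENNReal.ofReal_ne_top⟩)
      have h3 : ∑' a : ℕ, ‖Aη T d hd a‖ₑ * (ENNReal.ofReal ((a : ℝ) ^ σ))⁻¹ = S := by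
        rw [hS]
        refine tsum_congr fun a => ?_
        rcases Nat.eq_zero_or_pos a with ha | ha
        · subst ha; simp
        · have ha' : (0 : ℝ) < a := by exact_mod_cast ha
          rw [← ENNReal.ofReal_inv_of_pos (Real.rpow_pos_of_pos ha' _), ← Real.rpow_neg ha'.le]
      rw [h3] at h2
      refine (mul_le_mul_left (h1.trans h2) _).trans (le_of_eq ?_)
      rw [mul_assoc, ← ENNReal.tsum_mul_right]
      congr 1
      apply tsum_congr
      intro a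
      ring
    refine (setLIntegral_mono_ae' measurableSet_Ioi (Eventually.of_forall hpt)).trans ?_
    have hS2 : S ≠ ⊤ := ne_top_of_le_ne_top ENNReal.ofReal_ne_top hS1
    rw [lintegral_const_mul' _ _ hS2]
    refine mul_le_mul_right ?_ S
    rw [lintegral_tsum]
    · rw [hS, ← ENNReal.tsum_mul_right]
      refine ENNReal.tsum_le_tsum fun a => ?_
      rcases Nat.eq_zero_or_pos a with ha | ha
      · subst ha; simp
      have ha' : (0 : ℝ) < a := by exact_mod_cast ha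
      rw [lintegral_const_mul' _ _ (ENNReal.mul_ne_top enorm_ne_top ENNReal.ofReal_ne_top)]
      have h5 : ∫⁻ u in Set.Ioi u0, (ENNReal.ofReal (Real.sqrt a) * ‖G lam d (a * ray θ u)‖ₑ) ^ 2 *
            ENNReal.ofReal (u ^ (2 * σ)) =
          ENNReal.ofReal ((a : ℝ) * (a : ℝ) ^ (-(2 * σ))) * ∫⁻ u in Set.Ioi u0,
            (fun v => ‖G lam d (ray θ v)‖ₑ ^ 2 * ENNReal.ofReal (v ^ (2 * σ))) (a * u) := by
        rw [← lintegral_const_mul' _ _ ENNReal.ofReal_ne_top]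
        refine setLIntegral_congr_fun measurableSet_Ioi fun u hu => ?_
        have hu' : 0 < u := hu0.trans hu
        have e1 : (a : ℂ) * ray θ u = ray θ (a * u) := by
          rw [ray, ray]; push_cast; ring
        simp only []
        rw [e1, mul_pow, ← ENNReal.ofReal_pow (Real.sqrt_nonneg _), Real.sq_sqrt ha'.le,
          Real.mul_rpow ha'.le hu'.le, ENNReal.ofReal_mul (by positivity : (0:ℝ) ≤ (a : ℝ) ^ (2 * σ)),
          ENNReal.ofReal_mul ha'.le]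
        have e2 : ENNReal.ofReal ((a : ℝ) ^ (-(2 * σ))) * ENNReal.ofReal ((a : ℝ) ^ (2 * σ)) = 1 := by
          rw [← ENNReal.ofReal_mul (by positivity), ← Real.rpow_add ha', neg_add_cancel,
            Real.rpow_zero, ENNReal.ofReal_one]
        calc ENNReal.ofReal a * ‖G lam d (ray θ (a * u))‖ₑ ^ 2 * ENNReal.ofReal (u ^ (2 * σ))
            = ENNReal.ofReal a * ‖G lam d (ray θ (a * u))‖ₑ ^ 2 * ENNReal.ofReal (u ^ (2 * σ)) * 1 := by
              rw [mul_one]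
          _ = _ := by rw [← e2]; ring
      rw [h5, lint_scale (fun v => ‖G lam d (ray θ v)‖ₑ ^ 2 * ENNReal.ofReal (v ^ (2 * σ))) _ _ ha']
      have h6 : ∫⁻ v in Set.Ioi (a * u0), ‖G lam d (ray θ v)‖ₑ ^ 2 * ENNReal.ofReal (v ^ (2 * σ)) ≤
          NN σ θ u0 (G lam d) := by
        rw [NN]
        apply lintegral_mono_set
        apply Set.Ioi_subset_Ioi
        have : (1 : ℝ) ≤ a := by exact_mod_cast ha
        nlinarith
      refine (mul_le_mul_right (mul_le_mul_right (mul_le_mul_right h6 _) _) _).trans (le_of_eq ?_)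
      rw [← mul_assoc, ← mul_assoc]
      congr 1
      rw [mul_assoc, mul_assoc, ← ENNReal.ofReal_mul (by positivity), ← ENNReal.ofReal_mul (by positivity)]
      congr 2
      have e3 : (a : ℝ) ^ (-σ) = (a : ℝ) ^ σ * (a : ℝ) ^ (-(2 * σ)) := by
        rw [← Real.rpow_add ha']
        congr 1
        ring
      rw [e3]
      field_simp
    · intro a
      rcases Nat.eq_zero_or_pos a with ha | ha
      · subst ha
        simp
      · have := G_meas T.hecke d θ u0 hθ hu0.le a ha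
        have m1 : Measurable (fun u : ℝ => ENNReal.ofReal (u ^ (2 * σ))) :=
          ENNReal.measurable_ofReal.comp (measurable_id.pow_const _)
        have m2 := (AEMeasurable.const_mul this.enorm (ENNReal.ofReal (Real.sqrt a))).pow_const 2
        exact (m2.mul m1.aemeasurable).const_mul _
  refine key.trans ?_
  rw [← mul_assoc]
  refine mul_le_mul_left ?_ _
  refine (mul_le_mul' hS1 hS1).trans (le_of_eq ?_)
  have h0 : (0 : ℝ) ≤ (σ - 1 / 2)⁻¹ := inv_nonneg.mpr (by linarith)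
  rw [← ENNReal.ofReal_mul (by positivity)]
  congr 1
  ring

end

end Pool.Agent.Y784.QT9b
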