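import Mathlib

set_option autoImplicit false

open Finset

namespace Pool.Agent.Y784

/-! Archimedean extrapolation lemma for exponential polynomials (Baker's method). -/

theorem diff_iter {G : ℂ → ℂ} (hG : Differentiable ℂ G) (i : ℕ) :
    Differentiable ℂ (iteratedDeriv i G) := by
  have h : ContDiff ℂ ⊤ G := hG.contDiff
  exact (h.of_le le_top : ContDiff ℂ ((i + 1 : ℕ) : WithTop ℕ∞) G).differentiable_iteratedDeriv i
    (by norm_cast; omega)

/-- derivatives of `c + (x - z0) G1 x` -/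
theorem iter_rec {G1 : ℂ → ℂ} (h : Differentiable ℂ G1) (c z0 : ℂ) (i : ℕ) :
    iteratedDeriv (i + 1) (fun x => c + (x - z0) * G1 x) =
      fun w => (w - z0) * iteratedDeriv (i + 1) G1 w + ((i : ℂ) + 1) * iteratedDeriv i G1 w := by
  induction i with
  | zero =>
    funext w
    rw [iteratedDeriv_one, iteratedDeriv_one, iteratedDeriv_zero]
    have h1 : HasDerivAt (fun x => c + (x - z0) * G1 x)
        (1 * G1 w + (w - z0) * deriv G1 w) w := by
      have h2 := ((hasDerivAt_id w).sub_const z0).mul (h w).hasDerivAt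
      simpa using h2.const_add c
    rw [h1.deriv]
    push_cast
    ring
  | succ i ih =>
    funext w
    rw [iteratedDeriv_succ, ih]
    have e1 := (diff_iter h (i + 1) w).hasDerivAt
    have e0 := (diff_iter h i w).hasDerivAt
    have h2 := (((hasDerivAt_id w).sub_const z0).mul e1).add (e0.const_mul ((i : ℂ) + 1))
    have h3 : deriv (fun w => (w - z0) * iteratedDeriv (i + 1) G1 w +
        ((i : ℂ) + 1) * iteratedDeriv i G1 w) w = 1 * iteratedDeriv (i + 1) G1 w +
        (w - z0) * deriv (iteratedDeriv (i + 1) G1) w + ((i : ℂ) + 1) * deriv (iteratedDeriv i G1) w := by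
      exact h2.deriv
    rw [h3, ← iteratedDeriv_succ, ← iteratedDeriv_succ]
    push_cast
    ring

/-- Taylor coefficients -/
noncomputable def tc (G : ℂ → ℂ) (w : ℂ) (i : ℕ) : ℂ := iteratedDeriv i G w / (i.factorial : ℂ)

theorem tc_zero (G : ℂ → ℂ) (w : ℂ) : tc G w 0 = G w := by simp [tc]

theorem tc_rec {G G1 : ℂ → ℂ} (h : Differentiable ℂ G1) (c z0 : ℂ)
    (hG : G = fun x => c + (x - z0) * G1 x) (w : ℂ) (i : ℕ) :
    tc G w (i + 1) = (w - z0) * tc G1 w (i + 1) + tc G1 w i := by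
  unfold tc
  rw [hG, iter_rec h c z0 i, Nat.factorial_succ]
  have h1 : (i.factorial : ℂ) ≠ 0 := by exact_mod_cast i.factorial_ne_zero
  have h2 : ((i : ℂ) + 1) ≠ 0 := by exact_mod_cast i.succ_ne_zero
  push_cast
  field_simp

/-- one peel: the coefficients of the divided difference -/
theorem peel {G G1 : ℂ → ℂ} (h : Differentiable ℂ G1) (z0 : ℕ)
    (hG : G = fun x => G z0 + (x - z0) * G1 x) {e : ℝ} (he : 0 ≤ e) {τ : ℕ} {t : ℕ → ℕ} {Z : ℕ}
    (ht : ∀ z, z < Z → t z ≤ τ) (hz0 : z0 < Z) (hz1 : 0 < t z0)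
    (hb : ∀ z, z < Z → ∀ i, i < t z → ‖tc G z i‖ ≤ e) :
    ∀ z, z < Z → ∀ i, i < Function.update t z0 (t z0 - 1) z → ‖tc G1 z i‖ ≤ (τ + 1) * e := by
  intro z hz i hi
  by_cases hzz : z = z0
  · subst hzz
    rw [Function.update_self] at hi
    have h1 := tc_rec h (G z) z hG z i
    rw [sub_self, zero_mul, zero_add] at h1
    rw [← h1]
    refine (hb z hz (i + 1) (by omega)).trans ?_
    have : (0 : ℝ) ≤ τ := τ.cast_nonneg
    nlinarith
  · rw [Function.update_of_ne hzz] at hi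
    have hne : (1 : ℝ) ≤ ‖((z : ℂ) - (z0 : ℂ))‖ := by
      have h1 : ((z : ℂ) - (z0 : ℂ)) = (((z : ℤ) - (z0 : ℤ) : ℤ) : ℂ) := by push_cast; ring
      rw [h1, Complex.norm_intCast]
      have h2 : ((z : ℤ) - (z0 : ℤ)) ≠ 0 := by
        intro h3
        apply hzz
        omega
      exact_mod_cast Int.one_le_abs h2
    have key : ∀ j, j < t z → ‖tc G1 z j‖ ≤ (j + 2) * e := by
      intro j
      induction j with
      | zero =>
        intro hj
        have h0 : G z - G z0 = ((z : ℂ) - z0) * G1 z := by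
          have := congrFun hG z
          rw [this]
          simp
        have h1 : ‖((z : ℂ) - z0)‖ * ‖G1 z‖ ≤ 2 * e := by
          rw [← norm_mul, ← h0]
          refine (norm_sub_le _ _).trans ?_
          have a1 := hb z hz 0 hj
          have a2 := hb z0 hz0 0 hz1
          rw [tc_zero] at a1 a2
          linarith
        rw [tc_zero]
        have h2 : ‖G1 z‖ ≤ ‖((z : ℂ) - z0)‖ * ‖G1 z‖ := by
          have := norm_nonneg (G1 z)
          nlinarith
        push_cast
        linarith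
      | succ j ih =>
        intro hj
        have h1 := tc_rec h (G z0) z0 hG z j
        have h2 := ih (by omega)
        have h3 := hb z hz (j + 1) hj
        have h4 : ‖((z : ℂ) - z0)‖ * ‖tc G1 z (j + 1)‖ ≤ (j + 3) * e := by
          rw [← norm_mul]
          have : ((z : ℂ) - z0) * tc G1 z (j + 1) = tc G z (j + 1) - tc G1 z j := by
            rw [h1]; ring
          rw [this]
          refine (norm_sub_le _ _).trans ?_
          linarith
        have h5 : ‖tc G1 z (j + 1)‖ ≤ ‖((z : ℂ) - z0)‖ * ‖tc G1 z (j + 1)‖ := by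
          have := norm_nonneg (tc G1 z (j + 1))
          nlinarith
        push_cast
        linarith
    refine (key i hi).trans ?_
    have h1 : i + 1 ≤ τ := by have := ht z hz; omega
    have h2 : (i : ℝ) + 1 ≤ τ := by exact_mod_cast h1
    exact mul_le_mul_of_nonneg_right (by linarith) he

/-- the interpolation lemma -/
theorem interp {τ Z Z' : ℕ} (hτ : 1 ≤ τ) (hZ' : 1 ≤ Z') (hZZ : Z ≤ Z') (n : ℕ) (hn : n < Z') :
    ∀ (N : ℕ) (t : ℕ → ℕ) (G : ℂ → ℂ) (M e : ℝ), Differentiable ℂ G → 0 ≤ e →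
      (∀ z, z < Z → t z ≤ τ) → ∑ z ∈ range Z, t z = N →
      (∀ x : ℂ, ‖x‖ ≤ 16 * Z' → ‖G x‖ ≤ M) →
      (∀ z, z < Z → ∀ i, i < t z → ‖tc G z i‖ ≤ e) →
      ‖G n‖ ≤ M / 15 ^ N + e * (N * ((τ + 1 : ℝ) * Z') ^ N) := by
  have hZr : (1 : ℝ) ≤ Z' := by exact_mod_cast hZ'
  have hτr : (1 : ℝ) ≤ τ := by exact_mod_cast hτ
  have hn1 : ‖(n : ℂ)‖ ≤ 16 * Z' := by
    rw [Complex.norm_natCast]
    have : (n : ℝ) ≤ Z' := by exact_mod_cast hn.le
    linarith
  intro N
  induction N with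
  | zero =>
    intro t G M e hG he ht hs hM hb
    have := hM n hn1
    simpa using this
  | succ N ih =>
    intro t G M e hG he ht hs hM hb
    -- a node with positive multiplicity
    obtain ⟨z0, hz0, hz1⟩ : ∃ z0, z0 < Z ∧ 0 < t z0 := by
      by_contra hcon
      push Not at hcon
      have : ∑ z ∈ range Z, t z = 0 := Finset.sum_eq_zero fun z hz => by
        have := hcon z (Finset.mem_range.1 hz)
        omega
      omega
    set G1 : ℂ → ℂ := dslope G z0 with hG1
    have hd : Differentiable ℂ G1 := by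
      intro x
      have h1 : DifferentiableOn ℂ G1 Set.univ := by
        rw [hG1]
        exact (Complex.differentiableOn_dslope Filter.univ_mem).2 hG.differentiableOn
      exact (h1 x (Set.mem_univ x)).differentiableAt Filter.univ_mem
    have hG' : G = fun x => G z0 + (x - z0) * G1 x := by
      funext x
      have h1 : (x - (z0 : ℂ)) • dslope G z0 x = G x - G z0 := sub_smul_dslope G z0 x
      rw [smul_eq_mul] at h1
      rw [hG1, h1]
      ring
    have hz0r : (z0 : ℝ) ≤ Z' := by exact_mod_cast (hz0.le.trans hZZ)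
    have hz0n : ‖(z0 : ℂ)‖ ≤ Z' := by rw [Complex.norm_natCast]; exact hz0r
    have he0 : ‖G z0‖ ≤ e := by
      have := hb z0 hz0 0 hz1
      rwa [tc_zero] at this
    -- bound of `G1` on the ball
    have hM1 : ∀ x : ℂ, ‖x‖ ≤ 16 * Z' → ‖G1 x‖ ≤ (M + e) / (15 * Z') := by
      intro x hx
      have hfr : ∀ y ∈ frontier (Metric.ball (0 : ℂ) (16 * Z')), ‖G1 y‖ ≤ (M + e) / (15 * Z') := by
        intro y hy
        rw [frontier_ball (0 : ℂ) (by positivity : (16 * Z' : ℝ) ≠ 0)] at hy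
        have hy1 : ‖y‖ = 16 * Z' := by simpa using hy
        have h1 : 15 * (Z' : ℝ) ≤ ‖y - z0‖ := by
          have := norm_sub_norm_le y (z0 : ℂ)
          linarith
        have h2 : (y - z0) * G1 y = G y - G z0 := by
          have := congrFun hG' y
          rw [this]; ring
        have h3 : ‖y - z0‖ * ‖G1 y‖ ≤ M + e := by
          rw [← norm_mul, h2]
          exact (norm_sub_le _ _).trans (add_le_add (hM y hy1.le) he0)
        rw [le_div_iff₀ (by positivity)]
        have h4 := norm_nonneg (G1 y)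
        nlinarith
      have hcl : x ∈ closure (Metric.ball (0 : ℂ) (16 * Z')) := by
        rw [closure_ball (0 : ℂ) (by positivity : (16 * Z' : ℝ) ≠ 0)]
        simpa using hx
      exact Complex.norm_le_of_forall_mem_frontier_norm_le Metric.isBounded_ball
        hd.diffContOnCl hfr hcl
    have hs1 : ∑ z ∈ range Z, Function.update t z0 (t z0 - 1) z = N := by
      rw [Finset.sum_update_of_mem (Finset.mem_range.2 hz0)]
      have h1 := Finset.add_sum_erase (range Z) t (Finset.mem_range.2 hz0)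
      rw [Finset.sdiff_singleton_eq_erase]
      omega
    have ht1 : ∀ z, z < Z → Function.update t z0 (t z0 - 1) z ≤ τ := by
      intro z hz
      by_cases hzz : z = z0
      · subst hzz
        rw [Function.update_self]
        have := ht z hz
        omega
      · rw [Function.update_of_ne hzz]
        exact ht z hz
    have hb1 := peel hd z0 hG' he ht hz0 hz1 hb
    have h1 := ih (Function.update t z0 (t z0 - 1)) G1 ((M + e) / (15 * Z')) ((τ + 1) * e) hd
      (by positivity) ht1 hs1 hM1 hb1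
    have h2 : ‖G n‖ ≤ e + Z' * ‖G1 n‖ := by
      rw [hG']
      refine (norm_add_le _ _).trans (add_le_add he0 ?_)
      rw [norm_mul]
      refine mul_le_mul_of_nonneg_right ?_ (norm_nonneg _)
      have h3 : ((n : ℂ) - (z0 : ℂ)) = (((n : ℤ) - (z0 : ℤ) : ℤ) : ℂ) := by push_cast; ring
      rw [h3, Complex.norm_intCast]
      have h4 : |((n : ℤ) - (z0 : ℤ))| ≤ (Z' : ℤ) := by
        rw [abs_le]
        constructor <;> omega
      exact_mod_cast h4
    have hX : (2 : ℝ) ≤ (τ + 1 : ℝ) * Z' := by nlinarith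
    have hXN : (2 : ℝ) ≤ ((τ + 1 : ℝ) * Z') ^ (N + 1) := by
      calc (2 : ℝ) ≤ (τ + 1 : ℝ) * Z' := hX
        _ ≤ ((τ + 1 : ℝ) * Z') ^ (N + 1) := le_self_pow₀ (by linarith) (by omega)
    have h15 : (0 : ℝ) < 15 ^ N := by positivity
    have h15' : (1 : ℝ) / 15 ^ (N + 1) ≤ 1 := by
      rw [div_le_one (by positivity)]
      exact one_le_pow₀ (by norm_num)
    calc ‖G n‖ ≤ e + Z' * ‖G1 n‖ := h2
      _ ≤ e + Z' * ((M + e) / (15 * Z') / 15 ^ N + (τ + 1) * e * (N * ((τ + 1 : ℝ) * Z') ^ N)) := by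
        have : (0 : ℝ) ≤ Z' := by linarith
        have := mul_le_mul_of_nonneg_left h1 this
        linarith
      _ = M / 15 ^ (N + 1) + e * (1 + 1 / 15 ^ (N + 1) + N * ((τ + 1 : ℝ) * Z') ^ (N + 1)) := by
        rw [pow_succ, pow_succ]
        have : (Z' : ℝ) ≠ 0 := by linarith
        field_simp
        ring
      _ ≤ M / 15 ^ (N + 1) + e * (((N + 1 : ℕ) : ℝ) * ((τ + 1 : ℝ) * Z') ^ (N + 1)) := by
        push_cast
        have h6 : 1 + 1 / 15 ^ (N + 1) + N * ((τ + 1 : ℝ) * Z') ^ (N + 1) ≤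
            ((N : ℝ) + 1) * ((τ + 1 : ℝ) * Z') ^ (N + 1) := by linarith
        have := mul_le_mul_of_nonneg_left h6 he
        linarith


/-- the relations extend to powers of the linear form `∑ a j δ j` -/
theorem rel_pow {ι : Type*} [Fintype ι] {k : ℕ} (P : ι → ℂ) (δ : ι → Fin k → ℤ) (E : ι → ℂ)
    (a : Fin k → ℂ) {D : ℕ}
    (H : ∀ m : Fin k → ℕ, ∑ j, m j < D →
      ∑ l, P l * (∏ j, (δ l j : ℂ) ^ m j) * E l = 0) :
    ∀ (i : ℕ) (m : Fin k → ℕ), ∑ j, m j + i < D →
      ∑ l, P l * (∏ j, (δ l j : ℂ) ^ m j) * (∑ j, a j * (δ l j : ℂ)) ^ i * E l = 0 := by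
  classical
  intro i
  induction i with
  | zero =>
    intro m hm
    simpa using H m (by omega)
  | succ i ih =>
    intro m hm
    have h1 : ∀ l, P l * (∏ j, (δ l j : ℂ) ^ m j) * (∑ j, a j * (δ l j : ℂ)) ^ (i + 1) * E l =
        ∑ j', a j' * (P l * (∏ j, (δ l j : ℂ) ^ (m + (Pi.single j' 1 : Fin k → ℕ)) j) *
          (∑ j, a j * (δ l j : ℂ)) ^ i * E l) := by
      intro l
      have h2 : ∀ j', ∏ j, (δ l j : ℂ) ^ (m + (Pi.single j' 1 : Fin k → ℕ)) j =
          (∏ j, (δ l j : ℂ) ^ m j) * (δ l j' : ℂ) := by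
        intro j'
        have h3 : ∀ j, (δ l j : ℂ) ^ (m + (Pi.single j' 1 : Fin k → ℕ)) j =
            (δ l j : ℂ) ^ m j * (if j = j' then (δ l j : ℂ) else 1) := by
          intro j
          by_cases hj : j = j'
          · subst hj
            simp [pow_succ]
          · simp [hj]
        rw [Finset.prod_congr rfl fun j _ => h3 j, Finset.prod_mul_distrib]
        simp
      calc P l * (∏ j, (δ l j : ℂ) ^ m j) * (∑ j, a j * (δ l j : ℂ)) ^ (i + 1) * E l
          = (P l * (∏ j, (δ l j : ℂ) ^ m j) * (∑ j, a j * (δ l j : ℂ)) ^ i * E l) *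
            ∑ j, a j * (δ l j : ℂ) := by ring
        _ = _ := by
          rw [Finset.mul_sum]
          refine Finset.sum_congr rfl fun j' _ => ?_
          rw [h2 j']
          ring
    rw [Finset.sum_congr rfl fun l _ => h1 l, Finset.sum_comm]
    refine Finset.sum_eq_zero fun j' _ => ?_
    rw [← Finset.mul_sum, ih (m + (Pi.single j' 1 : Fin k → ℕ)), mul_zero]
    have h4 : ∑ j, (m + (Pi.single j' 1 : Fin k → ℕ)) j = ∑ j, m j + 1 := by
      simp only [Pi.add_apply]
      rw [Finset.sum_add_distrib]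
      simp
    omega

theorem pow_sub_le {x y : ℂ} {B ε : ℝ} (hB : 0 ≤ B) (hx : ‖x‖ ≤ B) (hy : ‖y‖ ≤ B)
    (hxy : ‖x - y‖ ≤ ε) (i : ℕ) : ‖x ^ i - y ^ i‖ ≤ i * ε * B ^ (i - 1) := by
  have hε : 0 ≤ ε := (norm_nonneg _).trans hxy
  induction i with
  | zero => simp
  | succ i ih =>
    have h1 : x ^ (i + 1) - y ^ (i + 1) = x * (x ^ i - y ^ i) + (x - y) * y ^ i := by ring
    rw [h1, Nat.add_sub_cancel]
    refine (norm_add_le _ _).trans ?_
    rw [norm_mul, norm_mul, norm_pow]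
    have h2 : ‖x‖ * ‖x ^ i - y ^ i‖ ≤ i * ε * B ^ i := by
      rcases Nat.eq_zero_or_pos i with h0 | h0
      · subst h0; simp
      · calc ‖x‖ * ‖x ^ i - y ^ i‖ ≤ B * (i * ε * B ^ (i - 1)) :=
              mul_le_mul hx ih (norm_nonneg _) hB
          _ = i * ε * (B ^ (i - 1) * B) := by ring
          _ = i * ε * B ^ i := by rw [← pow_succ, Nat.sub_add_cancel h0]
    have h3 : ‖x - y‖ * ‖y‖ ^ i ≤ ε * B ^ i :=
      mul_le_mul hxy (pow_le_pow_left₀ (norm_nonneg _) hy i) (by positivity) hε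
    push_cast
    linarith

theorem extraC {ι : Type*} [Fintype ι] {k : ℕ} (P : ι → ℂ) (δ : ι → Fin k → ℤ) (A : ι → ℂ)
    (a : Fin k → ℂ) {V T τ Z Z' : ℕ} {α ε : ℝ} (hV : 1 ≤ V) (hα : 1 ≤ α) (hε : 0 ≤ ε)
    (hε1 : ε ≤ 1) (hA : ∀ l, ‖A l‖ ≤ α)
    (hrel : ∀ l, ‖(V : ℂ) * A l - ∑ j, a j * (δ l j : ℂ)‖ ≤ ε)
    (hτ : 64 * α ≤ τ) (hZ : 1 ≤ Z) (hZZ : Z ≤ Z') (hZ' : Z' ≤ 2 * Z)
    (H : ∀ m : Fin k → ℕ, ∑ j, m j < T + τ → ∀ z : ℕ, z < Z →
      ∑ l, P l * (∏ j, (δ l j : ℂ) ^ m j) * Complex.exp (A l) ^ z = 0)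
    (m : Fin k → ℕ) (hm : ∑ j, m j < T) (n : ℕ) (hn : n < Z') :
    ‖∑ l, P l * (∏ j, (δ l j : ℂ) ^ m j) * Complex.exp (A l) ^ n‖ ≤
      (∑ l, ‖P l‖ * ∏ j, |(δ l j : ℝ)| ^ m j) *
        ((1 / 2 : ℝ) ^ (3 * (τ * Z)) +
          ε * ((τ * Z : ℕ) * ((τ + 1 : ℝ) * Z') ^ (τ * Z) * (V * α + 1) ^ τ *
            Real.exp (α * Z'))) := by
  have hVr : (1 : ℝ) ≤ V := by exact_mod_cast hV
  have hτ1 : 1 ≤ τ := by
    have : (1 : ℝ) ≤ τ := by linarith
    exact_mod_cast this
  have hZr : (1 : ℝ) ≤ Z := by exact_mod_cast hZ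
  have hZ'1 : 1 ≤ Z' := hZ.trans hZZ
  have hZ'r : (1 : ℝ) ≤ Z' := by exact_mod_cast hZ'1
  have hVα : 0 ≤ (V : ℝ) * α := by positivity
  set c : ι → ℂ := fun l => P l * ∏ j, (δ l j : ℂ) ^ m j with hc
  set S : ℝ := ∑ l, ‖P l‖ * ∏ j, |(δ l j : ℝ)| ^ m j with hS
  have hcS : ∑ l, ‖c l‖ = S := by
    rw [hS, hc]
    refine Finset.sum_congr rfl fun l _ => ?_
    rw [norm_mul, norm_prod]
    congr 1
    refine Finset.prod_congr rfl fun j _ => ?_
    rw [norm_pow, Complex.norm_intCast]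
  have hS0 : 0 ≤ S := by
    rw [← hcS]
    exact Finset.sum_nonneg fun l _ => norm_nonneg _
  set G : ℂ → ℂ := fun x => ∑ l, c l * Complex.exp (A l * x) with hG
  -- derivatives
  have hder : ∀ i : ℕ, iteratedDeriv i G = fun x => ∑ l, c l * A l ^ i * Complex.exp (A l * x) := by
    intro i
    induction i with
    | zero =>
      rw [iteratedDeriv_zero]
      funext x
      simp [hG]
    | succ i ih =>
      funext x
      rw [iteratedDeriv_succ, ih]
      have h1 : HasDerivAt (fun x => ∑ l, c l * A l ^ i * Complex.exp (A l * x))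
          (∑ l, c l * A l ^ i * (Complex.exp (A l * x) * (A l * 1))) x := by
        refine HasDerivAt.fun_sum fun l _ => ?_
        exact (((hasDerivAt_id x).const_mul (A l)).cexp).const_mul _
      rw [h1.deriv]
      refine Finset.sum_congr rfl fun l _ => ?_
      ring
  have hdiff : Differentiable ℂ G := by
    intro x
    rw [hG]
    exact (HasDerivAt.fun_sum fun l _ =>
      (((hasDerivAt_id x).const_mul (A l)).cexp).const_mul (c l)).differentiableAt
  have hexp : ∀ (l : ι) (z : ℕ), Complex.exp (A l * z) = Complex.exp (A l) ^ z := by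
    intro l z
    rw [mul_comm, Complex.exp_nat_mul]
  -- the bound on a ball
  have hM : ∀ x : ℂ, ‖x‖ ≤ 16 * Z' → ‖G x‖ ≤ S * Real.exp (α * (16 * Z')) := by
    intro x hx
    rw [hG, ← hcS, Finset.sum_mul]
    refine (norm_sum_le _ _).trans (Finset.sum_le_sum fun l _ => ?_)
    rw [norm_mul]
    refine mul_le_mul_of_nonneg_left ?_ (norm_nonneg _)
    refine (Complex.norm_exp_le_exp_norm _).trans (Real.exp_le_exp.2 ?_)
    rw [norm_mul]
    exact mul_le_mul (hA l) hx (norm_nonneg _) (by linarith)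
  set e : ℝ := S * ε * ((V * α + 1) ^ τ * Real.exp (α * Z')) with he
  have he0 : 0 ≤ e := by positivity
  -- Taylor coefficients
  have htc : ∀ z, z < Z → ∀ i, i < τ → ‖tc G z i‖ ≤ e := by
    intro z hz i hi
    have h0 := rel_pow P δ (fun l => Complex.exp (A l) ^ z) a (D := T + τ)
      (fun m' hm' => H m' hm' z hz) i m (by omega)
    have h1 : (V : ℂ) ^ i * ∑ l, c l * A l ^ i * Complex.exp (A l * z) =
        ∑ l, c l * (((V : ℂ) * A l) ^ i - (∑ j, a j * (δ l j : ℂ)) ^ i) *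
          Complex.exp (A l) ^ z := by
      have h2 : ∀ l, c l * (((V : ℂ) * A l) ^ i - (∑ j, a j * (δ l j : ℂ)) ^ i) *
          Complex.exp (A l) ^ z = (V : ℂ) ^ i * (c l * A l ^ i * Complex.exp (A l * z)) -
          P l * (∏ j, (δ l j : ℂ) ^ m j) * (∑ j, a j * (δ l j : ℂ)) ^ i *
            Complex.exp (A l) ^ z := by
        intro l
        rw [hexp, hc]
        ring
      rw [Finset.sum_congr rfl fun l _ => h2 l, Finset.sum_sub_distrib, h0, sub_zero,
        Finset.mul_sum]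
    have h2 : ‖∑ l, c l * (((V : ℂ) * A l) ^ i - (∑ j, a j * (δ l j : ℂ)) ^ i) *
          Complex.exp (A l) ^ z‖ ≤ S * (i * ε * (V * α + 1) ^ (i - 1) * Real.exp (α * Z')) := by
      rw [← hcS, Finset.sum_mul]
      refine (norm_sum_le _ _).trans (Finset.sum_le_sum fun l _ => ?_)
      rw [norm_mul, norm_mul, mul_assoc]
      refine mul_le_mul_of_nonneg_left ?_ (norm_nonneg _)
      have b1 : ‖(V : ℂ) * A l‖ ≤ V * α := by
        rw [norm_mul, Complex.norm_natCast]
        exact mul_le_mul_of_nonneg_left (hA l) (by linarith)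
      have b2 : ‖∑ j, a j * (δ l j : ℂ)‖ ≤ V * α + 1 := by
        have h3 : ∑ j, a j * (δ l j : ℂ) = (V : ℂ) * A l -
            ((V : ℂ) * A l - ∑ j, a j * (δ l j : ℂ)) := by ring
        rw [h3]
        refine (norm_sub_le _ _).trans ?_
        have := hrel l
        linarith
      have b3 := pow_sub_le (B := V * α + 1) (by linarith) (by linarith) b2 (hrel l) i
      refine mul_le_mul b3 ?_ (norm_nonneg _) (by positivity)
      rw [← hexp]
      refine (Complex.norm_exp_le_exp_norm _).trans (Real.exp_le_exp.2 ?_)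
      rw [norm_mul, Complex.norm_natCast]
      have hzr : (z : ℝ) ≤ Z' := by exact_mod_cast (hz.le.trans hZZ)
      exact mul_le_mul (hA l) hzr (Nat.cast_nonneg _) (by linarith)
    have h3 : ‖iteratedDeriv i G z‖ ≤ S * (i * ε * (V * α + 1) ^ (i - 1) * Real.exp (α * Z')) := by
      rw [hder]
      refine le_trans ?_ h2
      rw [← h1, norm_mul, norm_pow, Complex.norm_natCast]
      have h4 : (1 : ℝ) ≤ (V : ℝ) ^ i := one_le_pow₀ hVr
      have h5 := norm_nonneg (∑ l, c l * A l ^ i * Complex.exp (A l * (z : ℂ)))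
      nlinarith
    have h4 : (i : ℝ) ≤ i.factorial := by exact_mod_cast Nat.self_le_factorial i
    have h5 : (0 : ℝ) < i.factorial := by exact_mod_cast i.factorial_pos
    unfold tc
    rw [norm_div, Complex.norm_natCast, div_le_iff₀ h5]
    refine h3.trans ?_
    have h6 : ((V : ℝ) * α + 1) ^ (i - 1) ≤ (V * α + 1) ^ τ :=
      pow_le_pow_right₀ (by linarith) (by omega)
    calc S * (i * ε * (V * α + 1) ^ (i - 1) * Real.exp (α * Z'))
        ≤ S * (i.factorial * ε * (V * α + 1) ^ τ * Real.exp (α * Z')) := by gcongr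
      _ = e * i.factorial := by rw [he]; ring
  have hsum : ∑ z ∈ range Z, (fun _ : ℕ => τ) z = τ * Z := by
    simp [mul_comm]
  have key := interp hτ1 hZ'1 hZZ n hn (τ * Z) (fun _ => τ) G _ e hdiff he0
    (fun _ _ => le_rfl) hsum hM htc
  have hGn : G n = ∑ l, P l * (∏ j, (δ l j : ℂ) ^ m j) * Complex.exp (A l) ^ n := by
    rw [hG]
    refine Finset.sum_congr rfl fun l _ => ?_
    rw [hexp]
  rw [hGn] at key
  refine key.trans ?_
  -- numerical part
  have hN : α * (16 * Z') ≤ ((τ * Z : ℕ) : ℝ) * (1 / 2) := by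
    have h1 : (Z' : ℝ) ≤ 2 * Z := by exact_mod_cast hZ'
    push_cast
    have h2 : α * (16 * Z') ≤ α * (32 * Z) := by
      apply mul_le_mul_of_nonneg_left _ (by linarith)
      linarith
    nlinarith
  have hexp2 : Real.exp (α * (16 * Z')) ≤ (15 / 8 : ℝ) ^ (τ * Z) := by
    calc Real.exp (α * (16 * Z')) ≤ Real.exp (((τ * Z : ℕ) : ℝ) * (1 / 2)) := Real.exp_le_exp.2 hN
      _ = Real.exp (1 / 2) ^ (τ * Z) := by rw [Real.exp_nat_mul]
      _ ≤ (15 / 8 : ℝ) ^ (τ * Z) := by
        refine pow_le_pow_left₀ (Real.exp_pos _).le ?_ _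
        have h1 : Real.exp (1 / 2) ^ 2 = Real.exp 1 := by
          rw [← Real.exp_nat_mul]; norm_num
        have h2 : Real.exp (1 / 2) ^ 2 ≤ (15 / 8 : ℝ) ^ 2 := by
          rw [h1]
          have := Real.exp_one_lt_d9
          norm_num
          linarith
        exact le_of_sq_le_sq h2 (by norm_num)
  have hfin1 : S * Real.exp (α * (16 * Z')) / 15 ^ (τ * Z) ≤ S * (1 / 2 : ℝ) ^ (3 * (τ * Z)) := by
    rw [mul_div_assoc]
    refine mul_le_mul_of_nonneg_left ?_ hS0
    rw [div_le_iff₀ (by positivity)]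
    refine hexp2.trans (le_of_eq ?_)
    rw [pow_mul (1 / 2 : ℝ) 3 (τ * Z), ← mul_pow]
    norm_num
  calc S * Real.exp (α * (16 * Z')) / 15 ^ (τ * Z) +
        e * (((τ * Z : ℕ) : ℝ) * ((τ + 1 : ℝ) * Z') ^ (τ * Z))
      ≤ S * (1 / 2 : ℝ) ^ (3 * (τ * Z)) +
        e * (((τ * Z : ℕ) : ℝ) * ((τ + 1 : ℝ) * Z') ^ (τ * Z)) := by linarith
    _ = _ := by
      rw [he]
      ring

end Pool.Agent.Y784
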